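import Pool.Agent.Lib.MP_fd6009_an.Curve

/-!
# The normal cone operator of the half space `{x | x.2 ≤ 0}`
-/

set_option autoImplicit false

open Filter Topology

namespace Pool.Agent.SumCE

/-- The normal cone operator of the half space `{x | x.2 ≤ 0}`. -/
def NC (x : E1) : Set (E1 →L[ℝ] ℝ) :=
  {b | x.2 ≤ 0 ∧ fs b = 0 ∧ 0 ≤ b (0, 1) ∧ b (0, 1) * x.2 = 0}

theorem NC_monotone (x y : E1) (a b : E1 →L[ℝ] ℝ) (ha : a ∈ NC x) (hb : b ∈ NC y) :
    0 ≤ (a - b) (x - y) := by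
  obtain ⟨ha1, ha2, ha3, ha4⟩ := ha
  obtain ⟨hb1, hb2, hb3, hb4⟩ := hb
  rw [pairing_eq, ha2, hb2]
  have h0 : ((0 : E0 →L[ℝ] ℝ) - 0) (x.1 - y.1) = 0 := by simp
  rw [h0]
  nlinarith [mul_nonneg ha3 (neg_nonneg.2 hb1), mul_nonneg hb3 (neg_nonneg.2 ha1)]

theorem NC_maximal (x : E1) (a : E1 →L[ℝ] ℝ)
    (h : ∀ (y : E1) (b : E1 →L[ℝ] ℝ), b ∈ NC y → 0 ≤ (a - b) (x - y)) : a ∈ NC x := by
  have hmem0 : ∀ (y : E0) (τ : ℝ), τ ≤ 0 → mk 0 0 ∈ NC (y, τ) := by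
    intro y τ hτ
    refine ⟨hτ, by simp, by simp, by simp⟩
  have hmem1 : ∀ (y : E0) (t : ℝ), 0 ≤ t → mk 0 t ∈ NC (y, 0) := by
    intro y t ht
    refine ⟨le_rfl, by simp, by simpa using ht, by simp⟩
  have h1 : ∀ (y : E0) (τ : ℝ), τ ≤ 0 → 0 ≤ fs a (x.1 - y) + a (0, 1) * (x.2 - τ) := by
    intro y τ hτ
    have := h _ _ (hmem0 y τ hτ)
    rw [pairing_eq] at this
    simpa using this
  have hfs : fs a = 0 := by
    ext v
    have h2 : ∀ t : ℝ, 0 ≤ a (0, 1) * x.2 + t * fs a v := by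
      intro t
      have := h1 (x.1 - t • v) 0 le_rfl
      simpa [add_comm] using this
    simpa using slope_zero h2
  have h3 : ∀ τ : ℝ, τ ≤ 0 → 0 ≤ a (0, 1) * (x.2 - τ) := by
    intro τ hτ
    have := h1 x.1 τ hτ
    simpa using this
  have h4 : ∀ t : ℝ, 0 ≤ t → 0 ≤ (a (0, 1) - t) * x.2 := by
    intro t ht
    have := h _ _ (hmem1 x.1 t ht)
    rw [pairing_eq] at this
    simpa using this
  have hx : x.2 ≤ 0 := by
    by_contra hcon
    push Not at hcon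
    have h5 := h4 (|a (0, 1)| + 1) (by positivity)
    have h6 : a (0, 1) - (|a (0, 1)| + 1) < 0 := by
      have := le_abs_self (a (0, 1))
      linarith
    nlinarith [mul_pos (neg_pos.2 h6) hcon]
  have ha0 : 0 ≤ a (0, 1) := by
    have := h3 (x.2 - 1) (by linarith)
    linarith
  refine ⟨hx, hfs, ha0, ?_⟩
  have h7 := h3 0 le_rfl
  have h8 : a (0, 1) * x.2 ≤ 0 := mul_nonpos_of_nonneg_of_nonpos ha0 hx
  linarith

lemma NC_nonempty {x : E1} (h : x.2 ≤ 0) : (NC x).Nonempty :=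
  ⟨0, h, by ext y; simp [fs_apply], by simp, by simp⟩

lemma NC_of_neg {x : E1} (h : x.2 < 0) {b : E1 →L[ℝ] ℝ} (hb : b ∈ NC x) : b = 0 := by
  obtain ⟨_, h2, _, h4⟩ := hb
  rcases mul_eq_zero.1 h4 with h5 | h5
  · refine ContinuousLinearMap.ext fun y => ?_
    rw [dual_eq b y, h2, h5]
    simp
  · exact absurd h5 h.ne

lemma interior_NC {x : E1} (h : x.2 < 0) : x ∈ interior {x : E1 | (NC x).Nonempty} := by
  rw [mem_interior]
  refine ⟨{y : E1 | y.2 < 0}, fun y hy => NC_nonempty (le_of_lt hy), ?_, h⟩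
  exact isOpen_lt continuous_snd continuous_const

end Pool.Agent.SumCE
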