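import Mathlib

/-!
# Basic facts on the Banach space of null families indexed by pairs of naturals

`E0` is the space `c₀(ℕ × ℕ)`.  We record the unit vectors, the evaluation functionals, the
expansion of a vector along the unit vectors and the summability of the coordinates of a
continuous linear functional.
-/

set_option autoImplicit false

open Filter Topology

namespace Pool.Agent.SumCE

/-- The Banach space `c₀(ℕ × ℕ)` of real null families. -/
abbrev E0 : Type := ZeroAtInftyContinuousMap (ℕ × ℕ) ℝ

/-- The unit vector at the index `i`. -/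
noncomputable def e (i : ℕ × ℕ) : E0 where
  toFun := fun j => if j = i then 1 else 0
  continuous_toFun := continuous_of_discreteTopology
  zero_at_infty' := by
    rw [cocompact_eq_cofinite]
    refine tendsto_const_nhds.congr' ?_
    have : ∀ᶠ j in (cofinite : Filter (ℕ × ℕ)), j ≠ i := by
      simp [Filter.eventually_cofinite]
    filter_upwards [this] with j hj
    simp [hj]

@[simp] lemma e_apply (i j : ℕ × ℕ) : e i j = if j = i then 1 else 0 := rfl

lemma norm_le_of_forall {y : E0} {C : ℝ} (hC : 0 ≤ C) (h : ∀ i, |y i| ≤ C) : ‖y‖ ≤ C := by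
  rw [← ZeroAtInftyContinuousMap.norm_toBCF_eq_norm]
  exact (BoundedContinuousFunction.norm_le hC).2 h

lemma abs_apply_le_norm (y : E0) (i : ℕ × ℕ) : |y i| ≤ ‖y‖ := by
  rw [← ZeroAtInftyContinuousMap.norm_toBCF_eq_norm]
  exact y.toBCF.norm_coe_le_norm i

lemma sum_apply {ι : Type} (s : Finset ι) (f : ι → E0) (i : ℕ × ℕ) :
    (∑ j ∈ s, f j) i = ∑ j ∈ s, f j i := by
  classical
  induction s using Finset.induction_on with
  | empty => simp
  | insert a s ha ih => simp [Finset.sum_insert ha, ih]

lemma tendsto_cofinite (y : E0) : Tendsto (fun i => y i) cofinite (𝓝 0) := by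
  have := y.zero_at_infty'
  rw [cocompact_eq_cofinite] at this
  exact this

/-- Expansion along the unit vectors. -/
lemma hasSum_smul_e (y : E0) : HasSum (fun i => y i • e i) y := by
  rw [HasSum, SummationFilter.unconditional_filter, Metric.tendsto_atTop]
  intro ε hε
  have h1 : ∀ᶠ i in (cofinite : Filter (ℕ × ℕ)), |y i| < ε / 2 := by
    have := (tendsto_cofinite y).eventually (Metric.ball_mem_nhds (0 : ℝ) (half_pos hε))
    filter_upwards [this] with i hi
    simpa [Real.dist_eq] using hi
  rw [Filter.eventually_cofinite] at h1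
  refine ⟨h1.toFinset, fun s hs => ?_⟩
  rw [dist_eq_norm]
  refine lt_of_le_of_lt (norm_le_of_forall (half_pos hε).le fun i => ?_) (half_lt_self hε)
  have hval : (∑ j ∈ s, y j • e j) i = if i ∈ s then y i else 0 := by
    rw [sum_apply]
    simp [e_apply]
  rw [ZeroAtInftyContinuousMap.sub_apply, hval]
  by_cases hi : i ∈ s
  · simp [hi, (half_pos hε).le]
  · have : i ∉ h1.toFinset := fun h => hi (hs h)
    simp only [Set.Finite.mem_toFinset, Set.mem_ofPred_eq, not_not] at this
    simp only [hi, if_false, zero_sub, abs_neg]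
    exact this.le

/-- A continuous functional is determined by its coordinates. -/
lemma hasSum_dual (a : E0 →L[ℝ] ℝ) (y : E0) : HasSum (fun i => y i * a (e i)) (a y) := by
  have h := (hasSum_smul_e y).mapL a
  simpa [smul_eq_mul] using h

lemma summable_abs_dual (a : E0 →L[ℝ] ℝ) : Summable (fun i => |a (e i)|) := by
  refine summable_of_sum_le (fun i => abs_nonneg _) (c := ‖a‖) fun s => ?_
  have h1 : (∑ i ∈ s, |a (e i)|) = a (∑ i ∈ s, (SignType.sign (a (e i)) : ℝ) • e i) := by
    rw [map_sum]
    refine Finset.sum_congr rfl fun i _ => ?_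
    rw [map_smul, smul_eq_mul, sign_mul_self]
  rw [h1]
  refine le_trans (le_abs_self _) (le_trans (a.le_opNorm _) ?_)
  refine mul_le_of_le_one_right (norm_nonneg _) (norm_le_of_forall zero_le_one fun i => ?_)
  rw [sum_apply]
  have hval : (∑ j ∈ s, ((SignType.sign (a (e j)) : ℝ) • e j) i)
      = if i ∈ s then (SignType.sign (a (e i)) : ℝ) else 0 := by
    simp [e_apply]
  rw [hval]
  split_ifs
  · rcases lt_trichotomy (a (e i)) 0 with h | h | h
    · simp [sign_neg h]
    · simp [h]
    · simp [sign_pos h]
  · simp

lemma dual_ext {a b : E0 →L[ℝ] ℝ} (h : ∀ i, a (e i) = b (e i)) : a = b := by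
  ext y
  have h1 := hasSum_dual a y
  have h2 := hasSum_dual b y
  simp only [h] at h1
  exact h1.unique h2

/-- The evaluation functional at the index `i`. -/
noncomputable def δ (i : ℕ × ℕ) : E0 →L[ℝ] ℝ :=
  LinearMap.mkContinuous
    { toFun := fun y => y i
      map_add' := fun _ _ => rfl
      map_smul' := fun _ _ => rfl } 1
    (fun y => by simpa using abs_apply_le_norm y i)

@[simp] lemma δ_apply (i : ℕ × ℕ) (y : E0) : δ i y = y i := rfl

end Pool.Agent.SumCE
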