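import Pool.Agent.Lib.MP_fd6009_an.Op

/-!
# The curves with a gap

For `g ≥ 0` we build a curve `cu g : ℝ → ℕ → ℝ`, contracting for the `ℓ²` distance, which has
finitely supported values for `|τ| > g` and non-summable values for `|τ| ≤ g`, and which is rigid.
-/

set_option autoImplicit false

open Filter Topology

namespace Pool.Agent.SumCE

/-- The raw weights `(m+1)^(-3/4)`. -/
noncomputable def b0 (m : ℕ) : ℝ := (1 / ((m : ℝ) + 1)) ^ (3 / 4 : ℝ)

lemma b0_pos (m : ℕ) : 0 < b0 m := Real.rpow_pos_of_pos (by positivity) _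

lemma b0_sq (m : ℕ) : (b0 m) ^ 2 = (1 / ((m : ℝ) + 1)) ^ (3 / 2 : ℝ) := by
  unfold b0
  rw [← Real.rpow_natCast, ← Real.rpow_mul (by positivity)]
  norm_num

lemma summable_b0_sq : Summable (fun m => (b0 m) ^ 2) := by
  have h : Summable (fun n : ℕ => 1 / (n : ℝ) ^ (3 / 2 : ℝ)) :=
    Real.summable_one_div_nat_rpow.2 (by norm_num)
  have h2 := (summable_nat_add_iff 1).2 h
  refine h2.congr fun m => ?_
  rw [b0_sq, Real.div_rpow (by norm_num) (by positivity), Real.one_rpow]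
  push_cast
  rfl

/-- The normalising constant. -/
noncomputable def S0 : ℝ := ∑' m, (b0 m) ^ 2

lemma S0_pos : 0 < S0 :=
  summable_b0_sq.tsum_pos (fun m => sq_nonneg _) 0 (by have := b0_pos 0; positivity)

/-- The weights, with square sum at most one. -/
noncomputable def bb (m : ℕ) : ℝ := b0 m / Real.sqrt S0

lemma bb_pos (m : ℕ) : 0 < bb m := div_pos (b0_pos m) (Real.sqrt_pos.2 S0_pos)

lemma sum_bb_sq_le (s : Finset ℕ) : ∑ m ∈ s, (bb m) ^ 2 ≤ 1 := by
  have h1 : ∀ m, (bb m) ^ 2 = (b0 m) ^ 2 / S0 := by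
    intro m
    unfold bb
    rw [div_pow, Real.sq_sqrt S0_pos.le]
  simp only [h1]
  rw [← Finset.sum_div, div_le_one S0_pos]
  exact summable_b0_sq.sum_le_tsum s (fun m _ => sq_nonneg _)

/-- The harmonic values. -/
noncomputable def aa (m : ℕ) : ℝ := 1 / ((m : ℝ) + 1)

lemma aa_pos (m : ℕ) : 0 < aa m := by unfold aa; positivity

lemma not_summable_aa : ¬ Summable aa := by
  intro h
  have h2 : Summable (fun n : ℕ => 1 / (n : ℝ)) := by
    rw [← summable_nat_add_iff 1]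
    refine h.congr fun m => ?_
    unfold aa
    push_cast
    rfl
  exact Real.not_summable_one_div_natCast h2

/-- For every positive `r` the inequality `r * bb m ≤ aa m` holds only finitely often. -/
lemma eventually_aa_lt {r : ℝ} (hr : 0 < r) : ∀ᶠ m in atTop, aa m < bb m * r := by
  have h1 : Tendsto (fun m : ℕ => ((m : ℝ) + 1) ^ (1 / 4 : ℝ)) atTop atTop :=
    (tendsto_rpow_atTop (by norm_num)).comp
      (tendsto_atTop_add_const_right _ _ tendsto_natCast_atTop_atTop)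
  have h2 : ∀ᶠ m : ℕ in atTop, Real.sqrt S0 / r < ((m : ℝ) + 1) ^ (1 / 4 : ℝ) :=
    h1.eventually_gt_atTop _
  filter_upwards [h2] with m hm
  have hm0 : (0 : ℝ) < (m : ℝ) + 1 := by positivity
  have hS : 0 < Real.sqrt S0 := Real.sqrt_pos.2 S0_pos
  have key : b0 m = aa m * ((m : ℝ) + 1) ^ (1 / 4 : ℝ) := by
    unfold b0 aa
    rw [Real.div_rpow (by norm_num) hm0.le, Real.one_rpow, div_mul_eq_mul_div, one_mul,
      div_eq_div_iff (by positivity) hm0.ne', one_mul, ← Real.rpow_add hm0]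
    norm_num
  unfold bb
  rw [key]
  rw [div_lt_iff₀ hr] at hm
  have h3 : aa m * Real.sqrt S0 < aa m * (((m : ℝ) + 1) ^ (1 / 4 : ℝ) * r) :=
    mul_lt_mul_of_pos_left hm (aa_pos m)
  rw [div_mul_eq_mul_div, lt_div_iff₀ hS]
  linarith

/-- Truncation to the interval `[-g, g]`. -/
noncomputable def cl (g τ : ℝ) : ℝ := max (-g) (min τ g)

/-- Distance to the interval `[-g, g]`. -/
noncomputable def rr (g τ : ℝ) : ℝ := |τ - cl g τ|

/-- The curve with gap `[-g, g]`. -/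
noncomputable def cu (g τ : ℝ) : ℕ → ℝ
  | 0 => cl g τ
  | m + 1 => max (aa m - bb m * rr g τ) 0

@[simp] lemma cu_zero (g τ : ℝ) : cu g τ 0 = cl g τ := rfl
@[simp] lemma cu_succ (g τ : ℝ) (m : ℕ) : cu g τ (m + 1) = max (aa m - bb m * rr g τ) 0 := rfl

lemma cl_of_le {g τ : ℝ} (h : |τ| ≤ g) : cl g τ = τ := by
  unfold cl
  rw [abs_le] at h
  rw [min_eq_left h.2, max_eq_right h.1]

lemma rr_of_le {g τ : ℝ} (h : |τ| ≤ g) : rr g τ = 0 := by
  unfold rr
  rw [cl_of_le h]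
  simp

lemma rr_pos {g τ : ℝ} (hg : 0 ≤ g) (h : g < |τ|) : 0 < rr g τ := by
  unfold rr cl
  rw [abs_pos, sub_ne_zero]
  intro h2
  rcases le_total 0 τ with h0 | h0
  · rw [abs_of_nonneg h0] at h
    rw [min_eq_right h.le, max_eq_right (by linarith)] at h2
    linarith
  · rw [abs_of_nonpos h0] at h
    rw [min_eq_left (by linarith), max_eq_left (by linarith)] at h2
    linarith

/-- The truncation and its complement split distances. -/
lemma split_dist (g τ σ : ℝ) :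
    (cl g τ - cl g σ) ^ 2 + (rr g τ - rr g σ) ^ 2 ≤ (τ - σ) ^ 2 := by
  wlog h : σ ≤ τ generalizing τ σ with H
  · have := H σ τ (le_of_not_ge h)
    nlinarith [this]
  have hc : cl g σ ≤ cl g τ := by
    unfold cl
    exact max_le_max le_rfl (min_le_min h le_rfl)
  have hs : σ - cl g σ ≤ τ - cl g τ := by
    unfold cl
    rcases le_total τ g with h1 | h1 <;> rcases le_total σ g with h2 | h2 <;>
      rcases le_total (-g) τ with h3 | h3 <;> rcases le_total (-g) σ with h4 | h4 <;>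
      rcases le_total (-g) g with h5 | h5 <;>
      simp only [h1, h2, h3, h4, h5, min_eq_left, min_eq_right, max_eq_left, max_eq_right] <;>
      linarith
  have hr : |rr g τ - rr g σ| ≤ |(τ - cl g τ) - (σ - cl g σ)| := abs_abs_sub_abs_le_abs_sub _ _
  have hr2 : (rr g τ - rr g σ) ^ 2 ≤ ((τ - cl g τ) - (σ - cl g σ)) ^ 2 := sq_le_sq.2 hr
  nlinarith [mul_nonneg (sub_nonneg.2 hc) (sub_nonneg.2 hs)]

lemma cu_succ_sub_sq_le (g τ σ : ℝ) (m : ℕ) :
    (cu g τ (m + 1) - cu g σ (m + 1)) ^ 2 ≤ (bb m) ^ 2 * (rr g τ - rr g σ) ^ 2 := by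
  rw [cu_succ, cu_succ, ← mul_pow]
  refine sq_le_sq.2 (le_trans (abs_max_sub_max_le_abs _ _ _) ?_)
  have : aa m - bb m * rr g τ - (aa m - bb m * rr g σ) = -(bb m * (rr g τ - rr g σ)) := by ring
  rw [this, abs_neg]

theorem contr_cu (g : ℝ) : Contr (cu g) := by
  intro τ σ s
  obtain ⟨N, hN⟩ : ∃ N : ℕ, s ⊆ Finset.range (N + 1) := by
    refine ⟨s.sup id, fun m hm => ?_⟩
    rw [Finset.mem_range]
    exact Nat.lt_succ_of_le (Finset.le_sup (f := id) hm)
  have h1 : ∑ m ∈ s, (cu g τ m - cu g σ m) ^ 2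
      ≤ ∑ m ∈ Finset.range (N + 1), (cu g τ m - cu g σ m) ^ 2 :=
    Finset.sum_le_sum_of_subset_of_nonneg hN fun _ _ _ => sq_nonneg _
  rw [Finset.sum_range_succ'] at h1
  have h2 : ∑ m ∈ Finset.range N, (cu g τ (m + 1) - cu g σ (m + 1)) ^ 2
      ≤ ∑ m ∈ Finset.range N, (bb m) ^ 2 * (rr g τ - rr g σ) ^ 2 :=
    Finset.sum_le_sum fun m _ => cu_succ_sub_sq_le g τ σ m
  rw [← Finset.sum_mul] at h2
  have h3 : (∑ m ∈ Finset.range N, (bb m) ^ 2) * (rr g τ - rr g σ) ^ 2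
      ≤ 1 * (rr g τ - rr g σ) ^ 2 :=
    mul_le_mul_of_nonneg_right (sum_bb_sq_le _) (sq_nonneg _)
  have h4 := split_dist g τ σ
  simp only [cu_zero] at h1
  linarith

lemma finSupp_cu {g τ : ℝ} (hg : 0 ≤ g) (h : g < |τ|) : FinSupp (cu g) τ := by
  have h1 := eventually_aa_lt (rr_pos hg h)
  rw [eventually_atTop] at h1
  obtain ⟨N, hN⟩ := h1
  refine ⟨Finset.range (N + 1), fun m hm => ?_⟩
  rw [Finset.mem_range, not_lt] at hm
  obtain ⟨k, rfl⟩ : ∃ k, m = k + 1 := ⟨m - 1, by omega⟩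
  rw [cu_succ, max_eq_right]
  have := hN k (by omega)
  linarith

lemma not_summable_cu {g τ : ℝ} (h : |τ| ≤ g) : ¬ Summable (fun m => |cu g τ m|) := by
  intro hs
  have h2 := (summable_nat_add_iff 1).2 hs
  apply not_summable_aa
  refine h2.congr fun m => ?_
  rw [cu_succ, rr_of_le h, mul_zero, sub_zero, max_eq_left (aa_pos m).le, abs_of_pos (aa_pos m)]

lemma continuous_cl (g : ℝ) : Continuous (cl g) := by
  unfold cl
  fun_prop

lemma continuous_rr (g : ℝ) : Continuous (rr g) := by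
  unfold rr
  have := continuous_cl g
  fun_prop

lemma continuous_cu (g : ℝ) (m : ℕ) : Continuous (fun τ => cu g τ m) := by
  cases m with
  | zero => exact continuous_cl g
  | succ m =>
    simp only [cu_succ]
    have := continuous_rr g
    fun_prop

/-- The inequalities over the parameters outside the gap extend to the ends of the gap. -/
lemma ineq_at_end {g τ₀ t₀ : ℝ} (hg : 0 ≤ g) {p : ℕ → ℝ}
    (h : ∀ τ, FinSupp (cu g) τ → ∀ F : Finset ℕ,
      ∑ m ∈ F, (p m - cu g τ m) ^ 2 ≤ (t₀ - τ) * (τ₀ - τ)) (σ : ℝ) (hσ : |σ| = g)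
    (F : Finset ℕ) :
    ∑ m ∈ F, (p m - cu g σ m) ^ 2 ≤ (t₀ - σ) * (τ₀ - σ) := by
  have hcont1 : Continuous (fun τ => ∑ m ∈ F, (p m - cu g τ m) ^ 2) :=
    continuous_finsetSum _ fun m _ => (continuous_const.sub (continuous_cu g m)).pow 2
  have hcont2 : Continuous (fun τ : ℝ => (t₀ - τ) * (τ₀ - τ)) := by fun_prop
  rcases le_total 0 σ with h0 | h0
  · rw [abs_of_nonneg h0] at hσ
    have h1 : Tendsto (fun τ => ∑ m ∈ F, (p m - cu g τ m) ^ 2) (𝓝[>] σ)
        (𝓝 (∑ m ∈ F, (p m - cu g σ m) ^ 2)) := hcont1.continuousAt.mono_left nhdsWithin_le_nhds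
    have h2 : Tendsto (fun τ : ℝ => (t₀ - τ) * (τ₀ - τ)) (𝓝[>] σ)
        (𝓝 ((t₀ - σ) * (τ₀ - σ))) := hcont2.continuousAt.mono_left nhdsWithin_le_nhds
    refine le_of_tendsto_of_tendsto h1 h2 ?_
    filter_upwards [self_mem_nhdsWithin] with τ hτ
    refine h τ (finSupp_cu hg ?_) F
    rw [Set.mem_Ioi] at hτ
    rw [abs_of_nonneg (by linarith)]
    linarith
  · rw [abs_of_nonpos h0] at hσ
    have h1 : Tendsto (fun τ => ∑ m ∈ F, (p m - cu g τ m) ^ 2) (𝓝[<] σ)
        (𝓝 (∑ m ∈ F, (p m - cu g σ m) ^ 2)) := hcont1.continuousAt.mono_left nhdsWithin_le_nhds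
    have h2 : Tendsto (fun τ : ℝ => (t₀ - τ) * (τ₀ - τ)) (𝓝[<] σ)
        (𝓝 ((t₀ - σ) * (τ₀ - σ))) := hcont2.continuousAt.mono_left nhdsWithin_le_nhds
    refine le_of_tendsto_of_tendsto h1 h2 ?_
    filter_upwards [self_mem_nhdsWithin] with τ hτ
    refine h τ (finSupp_cu hg ?_) F
    rw [Set.mem_Iio] at hτ
    rw [abs_of_nonpos (by linarith)]
    linarith

theorem rigid_cu {g : ℝ} (hg : 0 ≤ g) : Rigid (cu g) := by
  intro τ₀ t₀ p _ h
  have hE : ∀ σ, |σ| = g → ∀ F : Finset ℕ,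
      ∑ m ∈ F, (p m - cu g σ m) ^ 2 ≤ (t₀ - σ) * (τ₀ - σ) := ineq_at_end hg h
  have hgg : |g| = g := abs_of_nonneg hg
  have hgn : |(-g)| = g := by rw [abs_neg, hgg]
  have hclg : cl g g = g := cl_of_le hgg.le
  have hcln : cl g (-g) = -g := cl_of_le hgn.le
  -- the two parameters agree
  have heq : t₀ = τ₀ := by
    by_contra hne
    -- no parameter outside the gap lies strictly between them
    have hno : ∀ τ, (min t₀ τ₀ < τ) → (τ < max t₀ τ₀) → ¬ g < |τ| := by
      intro τ h1 h2 h3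
      have h4 := h τ (finSupp_cu hg h3) ∅
      simp only [Finset.sum_empty] at h4
      rcases lt_or_gt_of_ne hne with h5 | h5
      · rw [min_eq_left h5.le] at h1
        rw [max_eq_right h5.le] at h2
        nlinarith [mul_pos (sub_pos.2 h1) (sub_pos.2 h2)]
      · rw [min_eq_right (le_of_lt h5)] at h1
        rw [max_eq_left (le_of_lt h5)] at h2
        nlinarith [mul_pos (sub_pos.2 h1) (sub_pos.2 h2)]
    have hlt : min t₀ τ₀ < max t₀ τ₀ := by
      rcases lt_or_gt_of_ne hne with h5 | h5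
      · rw [min_eq_left h5.le, max_eq_right h5.le]; exact h5
      · rw [min_eq_right (le_of_lt h5), max_eq_left (le_of_lt h5)]; exact h5
    have hhi : max t₀ τ₀ ≤ g := by
      by_contra hcon
      push Not at hcon
      obtain ⟨τ, h1, h2⟩ := exists_between (max_lt hlt hcon)
      refine hno τ (lt_of_le_of_lt (le_max_left _ _) h1) h2 ?_
      exact lt_of_lt_of_le (lt_of_le_of_lt (le_max_right _ _) h1) (le_abs_self _)
    have hlo : -g ≤ min t₀ τ₀ := by
      by_contra hcon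
      push Not at hcon
      obtain ⟨τ, h1, h2⟩ := exists_between (lt_min hlt hcon)
      refine hno τ h1 (lt_of_lt_of_le h2 (min_le_left _ _)) ?_
      have h3 : τ < -g := lt_of_lt_of_le h2 (min_le_right _ _)
      exact lt_of_lt_of_le (by linarith) (neg_le_abs _)
    have ht1 : t₀ ≤ g := le_trans (le_max_left _ _) hhi
    have ht2 : τ₀ ≤ g := le_trans (le_max_right _ _) hhi
    have ht3 : -g ≤ t₀ := le_trans hlo (min_le_left _ _)
    have ht4 : -g ≤ τ₀ := le_trans hlo (min_le_right _ _)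
    have e1 := hE g hgg {0}
    have e2 := hE (-g) hgn {0}
    simp only [Finset.sum_singleton, cu_zero, hclg, hcln] at e1 e2
    have hA : 0 ≤ (g - t₀) * (g + τ₀) := mul_nonneg (by linarith) (by linarith)
    have hB : 0 ≤ (g + t₀) * (g - τ₀) := mul_nonneg (by linarith) (by linarith)
    have hAB : (g - t₀) * (g + τ₀) + (g + t₀) * (g - τ₀) ≤ 2 * ((g - p 0) * (g + p 0)) := by
      nlinarith [e1, e2]
    have hu : (g - p 0) ^ 2 ≤ (g - t₀) * (g - τ₀) := by nlinarith [e1]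
    have hv : (g + p 0) ^ 2 ≤ (g + t₀) * (g + τ₀) := by nlinarith [e2]
    have huv : ((g - p 0) * (g + p 0)) ^ 2
        ≤ ((g - t₀) * (g - τ₀)) * ((g + t₀) * (g + τ₀)) := by
      rw [mul_pow]
      exact mul_le_mul hu hv (sq_nonneg _) (mul_nonneg (by linarith) (by linarith))
    have hsq : ((g - t₀) * (g + τ₀) + (g + t₀) * (g - τ₀)) ^ 2
        ≤ 4 * (((g - t₀) * (g - τ₀)) * ((g + t₀) * (g + τ₀))) := by
      have h0 : 0 ≤ (g - t₀) * (g + τ₀) + (g + t₀) * (g - τ₀) := by linarith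
      have h1 : ((g - t₀) * (g + τ₀) + (g + t₀) * (g - τ₀)) ^ 2
          ≤ (2 * ((g - p 0) * (g + p 0))) ^ 2 := pow_le_pow_left₀ h0 hAB 2
      nlinarith [h1, huv]
    have hdiff : ((g - t₀) * (g + τ₀) - (g + t₀) * (g - τ₀)) ^ 2 ≤ 0 := by nlinarith [hsq]
    have hz : (g - t₀) * (g + τ₀) - (g + t₀) * (g - τ₀) = 0 := by
      have := sq_nonneg ((g - t₀) * (g + τ₀) - (g + t₀) * (g - τ₀))
      exact pow_eq_zero_iff (two_ne_zero) |>.1 (le_antisymm hdiff this)
    have hz2 : 2 * g * (τ₀ - t₀) = 0 := by linarith [hz, show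
      (g - t₀) * (g + τ₀) - (g + t₀) * (g - τ₀) = 2 * g * (τ₀ - t₀) by ring]
    rcases mul_eq_zero.1 hz2 with h7 | h7
    · have hg0 : g = 0 := by linarith
      subst hg0
      exact hne (by linarith)
    · exact hne (by linarith)
  refine ⟨heq, ?_⟩
  subst heq
  rcases lt_or_ge g |t₀| with hout | hin
  · intro m
    have h1 := h t₀ (finSupp_cu hg hout) {m}
    simp only [Finset.sum_singleton, sub_self, mul_zero] at h1
    have h2 : (p m - cu g t₀ m) ^ 2 = 0 := le_antisymm h1 (sq_nonneg _)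
    have h3 := pow_eq_zero_iff (two_ne_zero) |>.1 h2
    linarith
  · have hp0 : p 0 = t₀ := by
      have e1 := hE g hgg {0}
      have e2 := hE (-g) hgn {0}
      simp only [Finset.sum_singleton, cu_zero, hclg, hcln] at e1 e2
      rw [abs_le] at hin
      have e1' : |p 0 - g| ≤ |t₀ - g| := sq_le_sq.1 (by nlinarith [e1])
      have e2' : |p 0 - -g| ≤ |t₀ - -g| := sq_le_sq.1 (by nlinarith [e2])
      rw [abs_of_nonpos (by linarith : t₀ - g ≤ 0)] at e1'
      rw [abs_of_nonneg (by linarith : 0 ≤ t₀ - -g)] at e2'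
      have := abs_le.1 e1'
      have := abs_le.1 e2'
      linarith
    intro m
    cases m with
    | zero => rw [cu_zero, cl_of_le hin, hp0]
    | succ m =>
      have e1 := hE g hgg {0, m + 1}
      rw [Finset.sum_pair (by omega)] at e1
      simp only [cu_zero, hclg, hp0] at e1
      have e3 : cu g g (m + 1) = cu g t₀ (m + 1) := by
        rw [cu_succ, cu_succ, rr_of_le hgg.le, rr_of_le hin]
      rw [e3] at e1
      have h2 : (p (m + 1) - cu g t₀ (m + 1)) ^ 2 = 0 :=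
        le_antisymm (by nlinarith [e1]) (sq_nonneg _)
      have h3 := pow_eq_zero_iff (two_ne_zero) |>.1 h2
      linarith

/-- The domain of the operator misses the slab over the gap. -/
lemma Op_cu_empty {g : ℝ} {x : E1} (h : |x.2| ≤ g) : Op (cu g) x = ∅ := by
  rw [Set.eq_empty_iff_forall_notMem]
  rintro a ⟨_, h2, h3⟩
  apply not_summable_cu h
  refine h2.summable_abs_bv.congr fun m => ?_
  rw [h3 m]

lemma Op_cu_nonempty {g τ : ℝ} (hg : 0 ≤ g) (h : g < |τ|) :
    ∃ y : E0, (Op (cu g) (y, τ)).Nonempty := by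
  obtain ⟨s, hs⟩ := finSupp_cu hg h
  exact ⟨_, _, mem_Op_base hs⟩

theorem Op_cu_monotone (g : ℝ) (x y : E1) (a b : E1 →L[ℝ] ℝ)
    (ha : a ∈ Op (cu g) x) (hb : b ∈ Op (cu g) y) : 0 ≤ (a - b) (x - y) :=
  Op_monotone (contr_cu g) x y a b ha hb

theorem Op_cu_maximal {g : ℝ} (hg : 0 ≤ g) (x : E1) (a : E1 →L[ℝ] ℝ)
    (h : ∀ (y : E1) (b : E1 →L[ℝ] ℝ), b ∈ Op (cu g) y → 0 ≤ (a - b) (x - y)) :
    a ∈ Op (cu g) x :=
  Op_maximal (rigid_cu hg)
    ⟨g + 1, finSupp_cu hg (by rw [abs_of_nonneg (by linarith)]; linarith)⟩ x a h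

end Pool.Agent.SumCE
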