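import Pool.Agent.Lib.MP_fd6009_an.Curve

/-!
# Local maximality of the operator attached to the curve without gap
-/

set_option autoImplicit false

open Filter Topology

namespace Pool.Agent.SumCE

/-- The kernel part of `W` as a submodule of the product. -/
noncomputable def Kern : Submodule ℝ (E0 × (E0 →L[ℝ] ℝ)) where
  carrier := {z | IsW z.1 z.2 ∧ ∀ m, bv z.1 z.2 m = 0}
  zero_mem' := by
    refine ⟨fun m n => by simp, fun m => by simp [bv]⟩
  add_mem' := by
    rintro ⟨v, c⟩ ⟨v', c'⟩ ⟨h1, h2⟩ ⟨h3, h4⟩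
    refine ⟨h1.add h3, fun m => ?_⟩
    have := bv_add v v' c c' m
    simp only [Prod.mk_add_mk]
    rw [this]
    simp only at h2 h4
    rw [h2, h4, add_zero]
  smul_mem' := by
    rintro t ⟨v, c⟩ ⟨h1, h2⟩
    refine ⟨h1.smul t, fun m => ?_⟩
    have := bv_smul v c t m
    simp only [Prod.smul_mk]
    rw [this]
    simp only at h2
    rw [h2, mul_zero]

lemma mem_Kern {z : E0 × (E0 →L[ℝ] ℝ)} : z ∈ Kern ↔ IsW z.1 z.2 ∧ ∀ m, bv z.1 z.2 m = 0 :=
  Iff.rfl

/-- The domain of the kernel part of `W`. -/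
noncomputable def KD : Submodule ℝ E0 := Kern.map (LinearMap.fst ℝ E0 (E0 →L[ℝ] ℝ))

lemma vv_mem_KD (m k : ℕ) : vv m k ∈ KD :=
  ⟨(vv m k, vs m k), ⟨isW_vv m k, bv_vv m k⟩, rfl⟩

lemma e_sub_mem_KD (m k j : ℕ) : e (m, k + j) - e (m, k) ∈ KD := by
  induction j with
  | zero => simp
  | succ j ih =>
    have h1 : e (m, k + (j + 1)) - e (m, k) = vv m (k + j) + (e (m, k + j) - e (m, k)) := by
      unfold vv
      rw [← add_assoc k j 1]
      abel
    rw [h1]
    exact KD.add_mem (vv_mem_KD m (k + j)) ih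

lemma e_mem_closure (i : ℕ × ℕ) : e i ∈ KD.topologicalClosure := by
  obtain ⟨m, k⟩ := i
  rw [← SetLike.mem_coe, Submodule.topologicalClosure_coe, Metric.mem_closure_iff]
  intro ε hε
  obtain ⟨N, hN⟩ := exists_nat_one_div_lt hε
  -- average of shifted unit vectors
  have hN0 : (0 : ℝ) < (N : ℝ) + 1 := by positivity
  refine ⟨-(1 / ((N : ℝ) + 1)) • ∑ j ∈ Finset.range (N + 1), (e (m, k + (j + 1)) - e (m, k)), ?_, ?_⟩
  · exact KD.smul_mem _ (KD.sum_mem fun j _ => e_sub_mem_KD m k (j + 1))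
  · rw [dist_eq_norm]
    refine lt_of_le_of_lt (norm_le_of_forall (by positivity) fun i => ?_) hN
    have h1 : (e (m, k) - -(1 / ((N : ℝ) + 1)) •
        ∑ j ∈ Finset.range (N + 1), (e (m, k + (j + 1)) - e (m, k))) i
        = (1 / ((N : ℝ) + 1)) * ∑ j ∈ Finset.range (N + 1), (e (m, k + (j + 1))) i := by
      rw [ZeroAtInftyContinuousMap.sub_apply, ZeroAtInftyContinuousMap.smul_apply, sum_apply]
      simp only [ZeroAtInftyContinuousMap.sub_apply, Finset.sum_sub_distrib, Finset.sum_const,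
        Finset.card_range, nsmul_eq_mul, smul_eq_mul]
      push_cast
      field_simp
      ring
    rw [h1, abs_mul, abs_of_pos (by positivity : (0 : ℝ) < 1 / ((N : ℝ) + 1))]
    refine mul_le_of_le_one_right (by positivity) ?_
    obtain ⟨m', n⟩ := i
    simp only [e_apply, Prod.mk.injEq]
    rw [Finset.sum_boole]
    rw [abs_of_nonneg (by positivity)]
    have h2 : (Finset.filter (fun j => m' = m ∧ n = k + (j + 1)) (Finset.range (N + 1))).card ≤ 1 := by
      rw [Finset.card_le_one]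
      intro a ha b hb
      simp only [Finset.mem_filter] at ha hb
      omega
    exact_mod_cast h2

lemma KD_dense : KD.topologicalClosure = ⊤ := by
  rw [eq_top_iff]
  intro y _
  have h := hasSum_smul_e y
  refine (Submodule.isClosed_topologicalClosure KD).mem_of_tendsto h
    (Eventually.of_forall fun s => ?_)
  exact Submodule.sum_mem _ fun i _ => Submodule.smul_mem _ _ (e_mem_closure i)

/-- Density of the kernel domain. -/
lemma exists_kern_near (z : E0) {ε : ℝ} (hε : 0 < ε) :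
    ∃ (v : E0) (c : E0 →L[ℝ] ℝ), IsW v c ∧ (∀ m, bv v c m = 0) ∧ ‖z - v‖ < ε := by
  have hz : z ∈ KD.topologicalClosure := by rw [KD_dense]; trivial
  rw [← SetLike.mem_coe, Submodule.topologicalClosure_coe, Metric.mem_closure_iff] at hz
  obtain ⟨v, ⟨⟨v', c⟩, hc, rfl⟩, hv⟩ := hz ε hε
  exact ⟨v', c, hc.1, hc.2, by rwa [dist_eq_norm] at hv⟩

lemma kern_self {v : E0} {c : E0 →L[ℝ] ℝ} (hv : IsW v c) (hv0 : ∀ m, bv v c m = 0) : c v = 0 := by
  have h := hv.hasSum
  simp only [hv0] at h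
  have h2 : HasSum (fun _ : ℕ => (0 : ℝ)) 0 := hasSum_zero
  refine h.unique ?_
  simp

/-- The kernel part is orthogonal to all of `W`. -/
lemma kern_orth {v y : E0} {c b : E0 →L[ℝ] ℝ} (hv : IsW v c) (hv0 : ∀ m, bv v c m = 0)
    (hy : IsW y b) : b v + c y = 0 := by
  have h1 := (hy.add hv).hasSum
  have h2 := hy.hasSum
  simp only [bv_add, hv0, add_zero] at h1
  have h3 := h1.unique h2
  have h4 := kern_self hv hv0
  simp only [add_apply, map_add, h4] at h3
  linarith

/-- A linear functional on the kernel part which is bounded above on a ball of its first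
component is represented by a continuous functional of the first component. -/
lemma exists_repr (a : E0 →L[ℝ] ℝ) (y : E0) {ρ C : ℝ} (hρ : 0 < ρ)
    (h : ∀ (v : E0) (c : E0 →L[ℝ] ℝ), IsW v c → (∀ m, bv v c m = 0) → ‖v‖ < ρ → a v + c y ≤ C) :
    ∃ z : E0 →L[ℝ] ℝ, ∀ (v : E0) (c : E0 →L[ℝ] ℝ), IsW v c → (∀ m, bv v c m = 0) →
      a v + c y = z v := by
  have hC : 0 ≤ C := by
    have := h 0 0 (fun m n => by simp) (fun m => by simp [bv]) (by simpa using hρ)
    simpa using this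
  -- the linear functional on the kernel part
  let L : (E0 × (E0 →L[ℝ] ℝ)) →ₗ[ℝ] ℝ :=
    { toFun := fun z => a z.1 + z.2 y
      map_add' := fun z z' => by
        simp only [Prod.fst_add, Prod.snd_add, map_add, add_apply]
        ring
      map_smul' := fun t z => by
        simp only [Prod.smul_fst, Prod.smul_snd, map_smul, smul_apply, smul_eq_mul,
          RingHom.id_apply]
        ring }
  let f : (E0 × (E0 →L[ℝ] ℝ)) →ₗ.[ℝ] ℝ := ⟨Kern, L.comp Kern.subtype⟩
  let K : ℝ := 2 * C / ρ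
  have hK : 0 ≤ K := by positivity
  have hbound : ∀ (v : E0) (c : E0 →L[ℝ] ℝ), IsW v c → (∀ m, bv v c m = 0) →
      a v + c y ≤ K * ‖v‖ := by
    intro v c hv hv0
    rcases eq_or_ne v 0 with rfl | hne
    · -- all multiples are admissible
      rw [norm_zero, mul_zero]
      by_contra hcon
      push Not at hcon
      set A := a 0 + c y with hA
      have h1 := h (((C + 1) / A) • (0 : E0)) (((C + 1) / A) • c) (hv.smul _)
        (fun m => by rw [bv_smul, hv0, mul_zero]) (by simpa using hρ)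
      have h2 : a (((C + 1) / A) • (0 : E0)) + (((C + 1) / A) • c) y = (C + 1) / A * A := by
        simp [hA, smul_apply]
      rw [h2, div_mul_cancel₀ _ hcon.ne'] at h1
      linarith
    · have hn : 0 < ‖v‖ := norm_pos_iff.2 hne
      have h1 := h ((ρ / 2 / ‖v‖) • v) ((ρ / 2 / ‖v‖) • c) (hv.smul _)
        (fun m => by rw [bv_smul, hv0, mul_zero]) (by
          rw [norm_smul, Real.norm_of_nonneg (by positivity), div_mul_cancel₀ _ hn.ne']
          linarith)
      have h2 : a ((ρ / 2 / ‖v‖) • v) + ((ρ / 2 / ‖v‖) • c) y = (ρ / 2 / ‖v‖) * (a v + c y) := by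
        simp only [map_smul, smul_apply, smul_eq_mul]
        ring
      rw [h2] at h1
      have h3 : (a v + c y) * (ρ / 2) ≤ C * ‖v‖ := by
        rw [div_mul_eq_mul_div, div_le_iff₀ hn] at h1
        linarith
      have h4 : K * ‖v‖ = C * ‖v‖ / (ρ / 2) := by
        simp only [K]
        field_simp
      rw [h4, le_div_iff₀ (by positivity)]
      exact h3
  obtain ⟨g, hg1, hg2⟩ := exists_extension_of_le_sublinear f (fun z => K * ‖z.1‖)
    (fun t ht z => by
      simp only [Prod.smul_fst, norm_smul, Real.norm_of_nonneg ht.le]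
      ring)
    (fun z z' => by
      simp only [Prod.fst_add]
      rw [← mul_add]
      exact mul_le_mul_of_nonneg_left (norm_add_le _ _) hK)
    (fun z => hbound _ _ z.2.1 z.2.2)
  have hg0 : ∀ c : E0 →L[ℝ] ℝ, g (0, c) = 0 := by
    intro c
    have h1 := hg2 (0, c)
    have h2 := hg2 (0, -c)
    have h3 : g (0, -c) = -g (0, c) := by
      rw [← map_neg]
      congr 1
      ext <;> simp
    simp only [norm_zero, mul_zero] at h1 h2
    linarith
  let z0 : E0 →ₗ[ℝ] ℝ := g.comp (LinearMap.inl ℝ E0 (E0 →L[ℝ] ℝ))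
  have hz0 : ∀ v, z0 v = g (v, 0) := fun v => rfl
  let z : E0 →L[ℝ] ℝ := z0.mkContinuous K (by
    intro v
    rw [Real.norm_eq_abs, abs_le, hz0]
    have h1 := hg2 (v, 0)
    have h2 := hg2 (-v, 0)
    have h3 : g (-v, 0) = -g (v, 0) := by
      rw [← map_neg]
      congr 1
      ext <;> simp
    simp only [norm_neg] at h1 h2
    constructor <;> linarith)
  refine ⟨z, fun v c hv hv0 => ?_⟩
  have h1 := hg1 ⟨(v, c), hv, hv0⟩
  have h2 : g (v, c) = g (v, 0) + g (0, c) := by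
    rw [← map_add]
    congr 1
    ext <;> simp
  rw [hg0, add_zero] at h2
  have h3 : z v = g (v, 0) := rfl
  rw [h3, ← h2]
  exact h1.symm

/-- **Local maximality**: the operator attached to the curve without gap contains every pair
which is monotonically related to its part over an open set containing the base point. -/
theorem Op_local {U : Set E1} (hU : IsOpen U) {x : E1} (hx : x ∈ U) (a : E1 →L[ℝ] ℝ)
    (h : ∀ y ∈ U, ∀ b ∈ Op (cu 0) y, 0 ≤ (a - b) (x - y)) : a ∈ Op (cu 0) x := by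
  obtain ⟨r, hr, hball⟩ := Metric.isOpen_iff.1 hU x hx
  have hin : ∀ (y : E0) (τ : ℝ), ‖y - x.1‖ < r → |τ - x.2| < r → (y, τ) ∈ U := by
    intro y τ h1 h2
    apply hball
    rw [Metric.mem_ball, Prod.dist_eq, max_lt_iff]
    refine ⟨?_, ?_⟩
    · simpa [dist_eq_norm] using h1
    · simpa [Real.dist_eq] using h2
  have hfin : ∀ τ : ℝ, τ ≠ 0 → FinSupp (cu 0) τ :=
    fun τ hτ => finSupp_cu le_rfl (abs_pos.2 hτ)
  -- the local inequality in expanded form
  have hexp : ∀ (τ : ℝ) (s : Finset ℕ), (∀ m, m ∉ s → cu 0 τ m = 0) → |τ - x.2| < r →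
      ∀ (v : E0) (c : E0 →L[ℝ] ℝ), IsW v c → (∀ m, bv v c m = 0) →
      ‖by0 (cu 0 τ) s + v - x.1‖ < r →
      0 ≤ (fs a - (ba0 (cu 0 τ) s + c)) (x.1 - (by0 (cu 0 τ) s + v))
        + (a (0, 1) - τ) * (x.2 - τ) := by
    intro τ s hs hτ v c hv hv0 hn
    have h1 := h _ (hin _ τ hn hτ) _ (mem_Op_of hs hv hv0)
    rw [pairing_eq] at h1
    simpa only [fs_mk, mk_zero_one] using h1
  -- a parameter close to the base parameter
  obtain ⟨τ₁, hτ₁, hτ₁0⟩ : ∃ τ : ℝ, |τ - x.2| < r ∧ τ ≠ 0 := by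
    rcases eq_or_ne x.2 0 with h0 | h0
    · refine ⟨r / 2, ?_, by positivity⟩
      rw [h0, sub_zero, abs_of_pos (by positivity)]
      linarith
    · exact ⟨x.2, by simpa using hr, h0⟩
  obtain ⟨s₁, hs₁⟩ := hfin τ₁ hτ₁0
  obtain ⟨v₁, c₁, hv₁, hv₁0, hn₁⟩ :=
    exists_kern_near (x.1 - by0 (cu 0 τ₁) s₁) (half_pos hr)
  -- represent the functional
  obtain ⟨z, hz⟩ := exists_repr (fs a) x.1 (ρ := r / 2)
    (C := (fs a - (ba0 (cu 0 τ₁) s₁ + c₁)) (x.1 - (by0 (cu 0 τ₁) s₁ + v₁))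
        + (a (0, 1) - τ₁) * (x.2 - τ₁)) (half_pos hr) (by
      intro v c hv hv0 hn
      have h1 := hexp τ₁ s₁ hs₁ hτ₁ (v₁ + v) (c₁ + c) (hv₁.add hv)
        (fun m => by rw [bv_add, hv₁0, hv0, add_zero]) (by
          have h2 : by0 (cu 0 τ₁) s₁ + (v₁ + v) - x.1 = v - (x.1 - by0 (cu 0 τ₁) s₁ - v₁) := by
            abel
          rw [h2]
          calc ‖v - (x.1 - by0 (cu 0 τ₁) s₁ - v₁)‖ ≤ ‖v‖ + ‖x.1 - by0 (cu 0 τ₁) s₁ - v₁‖ :=
                norm_sub_le _ _
            _ < r / 2 + r / 2 := add_lt_add hn hn₁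
            _ = r := by ring)
      have h3 := kern_orth hv hv0 ((isW_base (cu 0 τ₁) s₁).add hv₁)
      have h4 := kern_self hv hv0
      simp only [sub_apply, add_apply, map_sub, map_add] at h1 h3 ⊢
      linarith)
  -- the corrected functional is in `W`
  have hW : IsW x.1 (fs a - z) := by
    rw [isW_iff]
    intro m k
    have := hz _ _ (isW_vv m k) (bv_vv m k)
    simp only [sub_apply]
    linarith
  -- main inequality
  have hmain : ∀ (τ : ℝ), τ ≠ 0 → |τ - x.2| < r → ∀ u : E0, ‖u‖ < r → ∀ F : Finset ℕ,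
      ∑ m ∈ F, (bv x.1 (fs a - z) m - cu 0 τ m) ^ 2
        ≤ z u + (a (0, 1) - τ) * (x.2 - τ) := by
    intro τ hτ0 hτ u hu F
    obtain ⟨s, hs⟩ := hfin τ hτ0
    refine le_of_forall_pos_le_add fun ε hε => ?_
    obtain ⟨η, hη, hη1, hη2⟩ : ∃ η : ℝ, 0 < η ∧ ‖u‖ + η < r ∧ ‖z‖ * η ≤ ε := by
      refine ⟨min ((r - ‖u‖) / 2) (ε / (‖z‖ + 1)), ?_, ?_, ?_⟩
      · exact lt_min (by linarith) (by positivity)
      · have := min_le_left ((r - ‖u‖) / 2) (ε / (‖z‖ + 1))
        linarith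
      · have h1 := min_le_right ((r - ‖u‖) / 2) (ε / (‖z‖ + 1))
        have h2 : ‖z‖ * min ((r - ‖u‖) / 2) (ε / (‖z‖ + 1)) ≤ ‖z‖ * (ε / (‖z‖ + 1)) :=
          mul_le_mul_of_nonneg_left h1 (norm_nonneg z)
        have h3 : ‖z‖ * (ε / (‖z‖ + 1)) ≤ ε := by
          rw [mul_div_assoc', div_le_iff₀ (by positivity)]
          nlinarith [norm_nonneg z, hε]
        linarith
    obtain ⟨v, c, hv, hv0, hn⟩ := exists_kern_near (x.1 - u - by0 (cu 0 τ) s) hη
    have hn' : ‖by0 (cu 0 τ) s + v - x.1‖ < r := by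
      have h2 : by0 (cu 0 τ) s + v - x.1 = -(u + (x.1 - u - by0 (cu 0 τ) s - v)) := by abel
      rw [h2, norm_neg]
      exact lt_of_le_of_lt (norm_add_le _ _) (by linarith)
    have h1 := hexp τ s hs hτ v c hv hv0 hn'
    have h2 := (hW.sub ((isW_base (cu 0 τ) s).add hv)).sum_sq_le F
    simp only [bv_sub, bv_add, hv0, bv_base (cu 0 τ) s hs, add_zero] at h2
    have h3 : (fs a - (ba0 (cu 0 τ) s + c)) (x.1 - (by0 (cu 0 τ) s + v))
        = (fs a - z - (ba0 (cu 0 τ) s + c)) (x.1 - (by0 (cu 0 τ) s + v))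
          + z (x.1 - (by0 (cu 0 τ) s + v)) := by
      simp only [sub_apply]
      ring
    have h4 : z (x.1 - (by0 (cu 0 τ) s + v)) ≤ z u + ε := by
      have h5 : x.1 - (by0 (cu 0 τ) s + v) = u + (x.1 - u - by0 (cu 0 τ) s - v) := by abel
      rw [h5, map_add]
      have h6 : z (x.1 - u - by0 (cu 0 τ) s - v) ≤ ‖z‖ * η := by
        refine le_trans (le_abs_self _) (le_trans (z.le_opNorm _) ?_)
        exact mul_le_mul_of_nonneg_left hn.le (norm_nonneg _)
      linarith
    rw [h3] at h1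
    linarith
  -- pass to the limit in the parameter
  have hlim : ∀ u : E0, ‖u‖ < r → ∀ F : Finset ℕ,
      ∑ m ∈ F, (bv x.1 (fs a - z) m - cu 0 x.2 m) ^ 2 ≤ z u := by
    intro u hu F
    have hc1 : Continuous (fun τ => ∑ m ∈ F, (bv x.1 (fs a - z) m - cu 0 τ m) ^ 2) :=
      continuous_finsetSum _ fun m _ => (continuous_const.sub (continuous_cu 0 m)).pow 2
    have hc2 : Continuous (fun τ : ℝ => z u + (a (0, 1) - τ) * (x.2 - τ)) := by fun_prop
    have h1 : Tendsto (fun τ => ∑ m ∈ F, (bv x.1 (fs a - z) m - cu 0 τ m) ^ 2) (𝓝[≠] x.2)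
        (𝓝 (∑ m ∈ F, (bv x.1 (fs a - z) m - cu 0 x.2 m) ^ 2)) :=
      hc1.continuousAt.mono_left nhdsWithin_le_nhds
    have h2 : Tendsto (fun τ : ℝ => z u + (a (0, 1) - τ) * (x.2 - τ)) (𝓝[≠] x.2)
        (𝓝 (z u + (a (0, 1) - x.2) * (x.2 - x.2))) :=
      hc2.continuousAt.mono_left nhdsWithin_le_nhds
    rw [sub_self, mul_zero, add_zero] at h2
    refine le_of_tendsto_of_tendsto h1 h2 ?_
    have h3 : ∀ᶠ τ in 𝓝[≠] x.2, |τ - x.2| < r := by
      refine nhdsWithin_le_nhds ?_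
      have := Metric.ball_mem_nhds x.2 hr
      filter_upwards [this] with τ hτ
      simpa [Real.dist_eq] using hτ
    have h4 : ∀ᶠ τ in 𝓝[≠] x.2, τ ≠ 0 := by
      rcases eq_or_ne x.2 0 with h0 | h0
      · rw [h0]
        exact self_mem_nhdsWithin
      · exact nhdsWithin_le_nhds (isOpen_ne.mem_nhds h0)
    filter_upwards [h3, h4] with τ h5 h6
    exact hmain τ h6 h5 u hu F
  have hz0 : z = 0 := by
    ext y
    rcases eq_or_ne y 0 with rfl | hne
    · simp
    · have hn : 0 < ‖y‖ := norm_pos_iff.2 hne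
      have hsm : ‖(r / 2 / ‖y‖) • y‖ < r := by
        rw [norm_smul, Real.norm_of_nonneg (by positivity), div_mul_cancel₀ _ hn.ne']
        linarith
      have h1 := hlim ((r / 2 / ‖y‖) • y) hsm ∅
      have h2 := hlim (-((r / 2 / ‖y‖) • y)) (by rwa [norm_neg]) ∅
      simp only [Finset.sum_empty, map_neg, map_smul, smul_eq_mul] at h1 h2
      have h3 : r / 2 / ‖y‖ * z y = 0 := by linarith
      rcases mul_eq_zero.1 h3 with h4 | h4
      · exact absurd h4 (by positivity)
      · simpa using h4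
  have hfs : fs a - z = fs a := by rw [hz0]; ext y; simp
  rw [hfs] at hW hlim hmain
  refine ⟨?_, hW, fun m => ?_⟩
  · -- the scalar parameters agree
    by_contra hne
    rcases lt_or_gt_of_ne hne with h5 | h5
    · -- `a (0,1) < x.2`
      have h1 : ∀ᶠ τ in 𝓝[<] x.2, a (0, 1) < τ := by
        refine nhdsWithin_le_nhds ?_
        exact lt_mem_nhds h5
      have h2 : ∀ᶠ τ in 𝓝[<] x.2, |τ - x.2| < r := by
        refine nhdsWithin_le_nhds ?_
        filter_upwards [Metric.ball_mem_nhds x.2 hr] with τ hτ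
        simpa [Real.dist_eq] using hτ
      have h3 : ∀ᶠ τ in 𝓝[<] x.2, τ ≠ 0 := by
        rcases eq_or_ne x.2 0 with h0 | h0
        · filter_upwards [self_mem_nhdsWithin] with τ hτ
          rw [Set.mem_Iio, h0] at hτ
          exact hτ.ne
        · exact nhdsWithin_le_nhds (isOpen_ne.mem_nhds h0)
      have h4 : ∀ᶠ τ in 𝓝[<] x.2, τ < x.2 := self_mem_nhdsWithin
      obtain ⟨τ, h6, h7, h8, h9⟩ := (h1.and (h2.and (h3.and h4))).exists
      have h10 := hmain τ h8 h7 0 (by simpa using hr) ∅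
      simp only [Finset.sum_empty, map_zero, zero_add] at h10
      nlinarith [mul_pos (sub_pos.2 h6) (sub_pos.2 h9)]
    · have h1 : ∀ᶠ τ in 𝓝[>] x.2, τ < a (0, 1) := by
        refine nhdsWithin_le_nhds ?_
        exact gt_mem_nhds h5
      have h2 : ∀ᶠ τ in 𝓝[>] x.2, |τ - x.2| < r := by
        refine nhdsWithin_le_nhds ?_
        filter_upwards [Metric.ball_mem_nhds x.2 hr] with τ hτ
        simpa [Real.dist_eq] using hτ
      have h3 : ∀ᶠ τ in 𝓝[>] x.2, τ ≠ 0 := by
        rcases eq_or_ne x.2 0 with h0 | h0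
        · filter_upwards [self_mem_nhdsWithin] with τ hτ
          rw [Set.mem_Ioi, h0] at hτ
          exact hτ.ne'
        · exact nhdsWithin_le_nhds (isOpen_ne.mem_nhds h0)
      have h4 : ∀ᶠ τ in 𝓝[>] x.2, x.2 < τ := self_mem_nhdsWithin
      obtain ⟨τ, h6, h7, h8, h9⟩ := (h1.and (h2.and (h3.and h4))).exists
      have h10 := hmain τ h8 h7 0 (by simpa using hr) ∅
      simp only [Finset.sum_empty, map_zero, zero_add] at h10
      nlinarith [mul_pos (sub_pos.2 h6) (sub_pos.2 h9)]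
  · have h1 := hlim 0 (by simpa using hr) {m}
    simp only [Finset.sum_singleton, map_zero] at h1
    have h2 : (bv x.1 (fs a) m - cu 0 x.2 m) ^ 2 = 0 := le_antisymm h1 (sq_nonneg _)
    have h3 := pow_eq_zero_iff (two_ne_zero) |>.1 h2
    linarith

end Pool.Agent.SumCE
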