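import Pool.Agent.Lib.MP_fd6009_an.Rel

/-!
# The operators `Op w` on `c₀(ℕ × ℕ) × ℝ`
-/

set_option autoImplicit false

open Filter Topology

namespace Pool.Agent.SumCE

/-- The Banach space `c₀(ℕ × ℕ) × ℝ`. -/
abbrev E1 : Type := E0 × ℝ

/-- The functional `(y, s) ↦ α y + t * s`. -/
noncomputable def mk (α : E0 →L[ℝ] ℝ) (t : ℝ) : E1 →L[ℝ] ℝ :=
  α.comp (ContinuousLinearMap.fst ℝ E0 ℝ) + t • ContinuousLinearMap.snd ℝ E0 ℝ

@[simp] lemma mk_apply (α : E0 →L[ℝ] ℝ) (t : ℝ) (x : E1) : mk α t x = α x.1 + t * x.2 := by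
  simp [mk]

/-- The restriction of a functional to the first factor. -/
noncomputable def fs (a : E1 →L[ℝ] ℝ) : E0 →L[ℝ] ℝ := a.comp (ContinuousLinearMap.inl ℝ E0 ℝ)

lemma fs_apply (a : E1 →L[ℝ] ℝ) (y : E0) : fs a y = a (y, 0) := rfl

lemma dual_eq (a : E1 →L[ℝ] ℝ) (x : E1) : a x = fs a x.1 + a (0, 1) * x.2 := by
  have h : x = (x.1, 0) + x.2 • ((0 : E0), (1 : ℝ)) := by
    ext <;> simp
  conv_lhs => rw [h]
  rw [map_add, map_smul, smul_eq_mul, fs_apply]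
  ring

@[simp] lemma fs_mk (α : E0 →L[ℝ] ℝ) (t : ℝ) : fs (mk α t) = α := by
  ext y
  simp [fs_apply]

@[simp] lemma mk_zero_one (α : E0 →L[ℝ] ℝ) (t : ℝ) : mk α t (0, 1) = t := by simp

lemma fs_sub (a b : E1 →L[ℝ] ℝ) : fs (a - b) = fs a - fs b := by
  ext y
  simp [fs_apply]

/-- The operator attached to a curve `w`. -/
def Op (w : ℝ → ℕ → ℝ) (x : E1) : Set (E1 →L[ℝ] ℝ) :=
  {a | a (0, 1) = x.2 ∧ IsW x.1 (fs a) ∧ ∀ m, bv x.1 (fs a) m = w x.2 m}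

lemma mem_Op {w : ℝ → ℕ → ℝ} {x : E1} {a : E1 →L[ℝ] ℝ} :
    a ∈ Op w x ↔ a (0, 1) = x.2 ∧ IsW x.1 (fs a) ∧ ∀ m, bv x.1 (fs a) m = w x.2 m := Iff.rfl

lemma pairing_eq (a b : E1 →L[ℝ] ℝ) (x y : E1) :
    (a - b) (x - y) = (fs a - fs b) (x.1 - y.1) + (a (0, 1) - b (0, 1)) * (x.2 - y.2) := by
  rw [dual_eq (a - b) (x - y), fs_sub]
  simp

/-- Contraction property of the curve with respect to the `ℓ²` distance. -/
def Contr (w : ℝ → ℕ → ℝ) : Prop :=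
  ∀ (τ σ : ℝ) (s : Finset ℕ), ∑ m ∈ s, (w τ m - w σ m) ^ 2 ≤ (τ - σ) ^ 2

theorem Op_monotone {w : ℝ → ℕ → ℝ} (hw : Contr w) (x y : E1) (a b : E1 →L[ℝ] ℝ)
    (ha : a ∈ Op w x) (hb : b ∈ Op w y) : 0 ≤ (a - b) (x - y) := by
  obtain ⟨ha1, ha2, ha3⟩ := ha
  obtain ⟨hb1, hb2, hb3⟩ := hb
  rw [pairing_eq, ha1, hb1]
  have h := (ha2.sub hb2).hasSum_sq
  have h2 : -((fs a - fs b) (x.1 - y.1)) ≤ (x.2 - y.2) ^ 2 := by
    refine hasSum_le_of_sum_le h fun s => ?_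
    simp only [bv_sub, ha3, hb3]
    exact hw x.2 y.2 s
  nlinarith [h2]

/-- The domain of the curve: parameters with finitely supported value. -/
def FinSupp (w : ℝ → ℕ → ℝ) (τ : ℝ) : Prop := ∃ s : Finset ℕ, ∀ m, m ∉ s → w τ m = 0

/-- The vector `∑ w_m e_{m,0}`. -/
noncomputable def by0 (u : ℕ → ℝ) (s : Finset ℕ) : E0 := ∑ m ∈ s, u m • e (m, 0)

/-- The functional `-∑ w_m δ_{m,0}`. -/
noncomputable def ba0 (u : ℕ → ℝ) (s : Finset ℕ) : E0 →L[ℝ] ℝ := -∑ m ∈ s, u m • δ (m, 0)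

lemma by0_apply (u : ℕ → ℝ) (s : Finset ℕ) (m n : ℕ) :
    by0 u s (m, n) = if n = 0 ∧ m ∈ s then u m else 0 := by
  unfold by0
  rw [sum_apply]
  by_cases hn : n = 0
  · subst hn
    simp [e_apply]
  · simp [e_apply, hn]

lemma ba0_apply (u : ℕ → ℝ) (s : Finset ℕ) (y : E0) :
    ba0 u s y = -∑ m ∈ s, u m * y (m, 0) := by
  simp [ba0]

lemma ba0_e (u : ℕ → ℝ) (s : Finset ℕ) (m n : ℕ) :
    ba0 u s (e (m, n)) = -(if n = 0 ∧ m ∈ s then u m else 0) := by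
  rw [ba0_apply]
  congr 1
  by_cases hn : n = 0
  · subst hn
    simp [e_apply]
  · have : ∀ x : ℕ, ¬ (x = m ∧ 0 = n) := fun x h => hn h.2.symm
    simp [e_apply, hn, this]

lemma isW_base (u : ℕ → ℝ) (s : Finset ℕ) : IsW (by0 u s) (ba0 u s) := by
  intro m n
  rw [ba0_e, ba0_e, by0_apply, by0_apply]
  simp

lemma bv_base (u : ℕ → ℝ) (s : Finset ℕ) (hs : ∀ m, m ∉ s → u m = 0) (m : ℕ) :
    bv (by0 u s) (ba0 u s) m = u m := by
  unfold bv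
  rw [ba0_e, by0_apply]
  by_cases hm : m ∈ s
  · simp [hm]
  · simp [hm, hs m hm]

/-- General members of `Op w` over a parameter with finitely supported value: base point plus an
element of the kernel part of `W`. -/
lemma mem_Op_of {w : ℝ → ℕ → ℝ} {τ : ℝ} {s : Finset ℕ} (hs : ∀ m, m ∉ s → w τ m = 0)
    {v : E0} {c : E0 →L[ℝ] ℝ} (hv : IsW v c) (hv0 : ∀ m, bv v c m = 0) :
    mk (ba0 (w τ) s + c) τ ∈ Op w (by0 (w τ) s + v, τ) := by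
  refine ⟨by simp, ?_, fun m => ?_⟩
  · simpa using (isW_base (w τ) s).add hv
  · simp only [fs_mk]
    rw [bv_add, bv_base (w τ) s hs, hv0, add_zero]

lemma mem_Op_base {w : ℝ → ℕ → ℝ} {τ : ℝ} {s : Finset ℕ} (hs : ∀ m, m ∉ s → w τ m = 0) :
    mk (ba0 (w τ) s) τ ∈ Op w (by0 (w τ) s, τ) := by
  refine ⟨by simp, ?_, fun m => ?_⟩
  · simpa using isW_base (w τ) s
  · simp only [fs_mk]
    rw [bv_base (w τ) s hs]

/-- An affine function bounded below on the line has zero slope. -/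
lemma slope_zero {A B : ℝ} (h : ∀ t : ℝ, 0 ≤ A + t * B) : B = 0 := by
  by_contra hB
  have := h (-(A + 1) / B)
  rw [div_mul_cancel₀ _ hB] at this
  linarith

lemma vs_vv (m k : ℕ) : vs m k (vv m k) = 0 := by
  rw [vs_apply]
  simp [vv]

/-- A pair monotonically related to `Op w` has its first part in `W`. -/
lemma isW_of_related {w : ℝ → ℕ → ℝ} {τ : ℝ} (hτ : FinSupp w τ) {x : E1} {a : E1 →L[ℝ] ℝ}
    (h : ∀ (y : E1) (b : E1 →L[ℝ] ℝ), b ∈ Op w y → 0 ≤ (a - b) (x - y)) : IsW x.1 (fs a) := by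
  obtain ⟨s, hs⟩ := hτ
  have key : IsW (x.1 - by0 (w τ) s) (fs a - ba0 (w τ) s) := by
    rw [isW_iff]
    intro m k
    refine slope_zero (A := (fs a - ba0 (w τ) s) (x.1 - by0 (w τ) s) + (a (0, 1) - τ) * (x.2 - τ))
      fun t => ?_
    have hmem : mk (ba0 (w τ) s + (-t) • vs m k) τ ∈ Op w (by0 (w τ) s + (-t) • vv m k, τ) :=
      mem_Op_of hs ((isW_vv m k).smul (-t)) fun m' => by rw [bv_smul, bv_vv, mul_zero]
    have h1 := h _ _ hmem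
    rw [pairing_eq] at h1
    simp only [fs_mk, mk_zero_one] at h1
    have h2 : (fs a - (ba0 (w τ) s + (-t) • vs m k)) (x.1 - (by0 (w τ) s + (-t) • vv m k))
        = (fs a - ba0 (w τ) s) (x.1 - by0 (w τ) s)
          + t * ((fs a - ba0 (w τ) s) (vv m k) + vs m k (x.1 - by0 (w τ) s)) := by
      have h3 := vs_vv m k
      simp only [sub_apply, add_apply, smul_apply, map_sub, map_add, map_smul, smul_eq_mul, h3]
      ring
    rw [h2] at h1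
    linarith
  have h4 := key.add (isW_base (w τ) s)
  have h5 : fs a - ba0 (w τ) s + ba0 (w τ) s = fs a := by ext y; simp
  rw [sub_add_cancel, h5] at h4
  exact h4

/-- The inequality satisfied by the boundary values of a related pair. -/
lemma bv_of_related {w : ℝ → ℕ → ℝ} {τ : ℝ} (hτ : FinSupp w τ) {x : E1} {a : E1 →L[ℝ] ℝ}
    (hW : IsW x.1 (fs a))
    (h : ∀ (y : E1) (b : E1 →L[ℝ] ℝ), b ∈ Op w y → 0 ≤ (a - b) (x - y)) (F : Finset ℕ) :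
    ∑ m ∈ F, (bv x.1 (fs a) m - w τ m) ^ 2 ≤ (a (0, 1) - τ) * (x.2 - τ) := by
  obtain ⟨s, hs⟩ := hτ
  have h1 := h _ _ (mem_Op_base hs)
  rw [pairing_eq] at h1
  simp only [fs_mk, mk_zero_one] at h1
  have h2 := (hW.sub (isW_base (w τ) s)).sum_sq_le F
  simp only [bv_sub, bv_base (w τ) s hs] at h2
  linarith

/-- Rigidity of the curve over a set of parameters. -/
def Rigid (w : ℝ → ℕ → ℝ) : Prop :=
  ∀ (τ₀ t₀ : ℝ) (p : ℕ → ℝ), Summable (fun m => |p m|) →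
    (∀ τ, FinSupp w τ → ∀ F : Finset ℕ,
      ∑ m ∈ F, (p m - w τ m) ^ 2 ≤ (t₀ - τ) * (τ₀ - τ)) →
    t₀ = τ₀ ∧ ∀ m, p m = w τ₀ m

theorem Op_maximal {w : ℝ → ℕ → ℝ} (hr : Rigid w) (hne : ∃ τ, FinSupp w τ)
    (x : E1) (a : E1 →L[ℝ] ℝ)
    (h : ∀ (y : E1) (b : E1 →L[ℝ] ℝ), b ∈ Op w y → 0 ≤ (a - b) (x - y)) : a ∈ Op w x := by
  obtain ⟨τ, hτ⟩ := hne
  have hW := isW_of_related hτ h
  obtain ⟨h1, h2⟩ := hr x.2 (a (0, 1)) (bv x.1 (fs a)) hW.summable_abs_bv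
    fun σ hσ F => bv_of_related hσ hW h F
  exact ⟨h1, hW, h2⟩

end Pool.Agent.SumCE
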