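import Pool.Agent.Lib.MP_fd6009_an.Basic

/-!
# The linear relation `W` on `c₀(ℕ × ℕ)`

`IsW y a` says that the pair `(y, a)` of a null family and a continuous linear functional
satisfies, row by row, the recursion `a_{n+1} - y_{n+1} = a_n + y_n`.  For such pairs the pairing
is `a y = - ∑ p_m ^ 2`, where `p_m` is half the difference of the zeroth entries of the rows, and
the family `p` is absolutely summable.
-/

set_option autoImplicit false

open Filter Topology

namespace Pool.Agent.SumCE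

/-- The linear relation `W`. -/
def IsW (y : E0) (a : E0 →L[ℝ] ℝ) : Prop :=
  ∀ m n : ℕ, a (e (m, n + 1)) - y (m, n + 1) = a (e (m, n)) + y (m, n)

/-- The boundary value of row `m`. -/
noncomputable def bv (y : E0) (a : E0 →L[ℝ] ℝ) (m : ℕ) : ℝ := (y (m, 0) - a (e (m, 0))) / 2

lemma IsW.sub {y z : E0} {a b : E0 →L[ℝ] ℝ} (h1 : IsW y a) (h2 : IsW z b) :
    IsW (y - z) (a - b) := by
  intro m n
  have h1' := h1 m n
  have h2' := h2 m n
  simp only [sub_apply, ZeroAtInftyContinuousMap.sub_apply]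
  linarith

lemma IsW.add {y z : E0} {a b : E0 →L[ℝ] ℝ} (h1 : IsW y a) (h2 : IsW z b) :
    IsW (y + z) (a + b) := by
  intro m n
  have h1' := h1 m n
  have h2' := h2 m n
  simp only [add_apply, ZeroAtInftyContinuousMap.add_apply]
  linarith

lemma IsW.smul {y : E0} {a : E0 →L[ℝ] ℝ} (h1 : IsW y a) (t : ℝ) :
    IsW (t • y) (t • a) := by
  intro m n
  have h1' := h1 m n
  simp only [smul_apply, ZeroAtInftyContinuousMap.smul_apply, smul_eq_mul]
  rw [← mul_sub, ← mul_add, h1']

lemma bv_sub (y z : E0) (a b : E0 →L[ℝ] ℝ) (m : ℕ) :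
    bv (y - z) (a - b) m = bv y a m - bv z b m := by
  simp only [bv, sub_apply, ZeroAtInftyContinuousMap.sub_apply]
  ring

lemma bv_add (y z : E0) (a b : E0 →L[ℝ] ℝ) (m : ℕ) :
    bv (y + z) (a + b) m = bv y a m + bv z b m := by
  simp only [bv, add_apply, ZeroAtInftyContinuousMap.add_apply]
  ring

lemma bv_smul (y : E0) (a : E0 →L[ℝ] ℝ) (t : ℝ) (m : ℕ) :
    bv (t • y) (t • a) m = t * bv y a m := by
  simp only [bv, smul_apply, ZeroAtInftyContinuousMap.smul_apply, smul_eq_mul]
  ring

/-- Rows of a null family tend to zero. -/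
lemma tendsto_row (y : E0) (m : ℕ) : Tendsto (fun n => y (m, n)) atTop (𝓝 0) := by
  have hinj : Function.Injective (fun n : ℕ => (m, n)) := fun a b h => by simpa using h
  have := (tendsto_cofinite y).comp hinj.tendsto_cofinite
  rwa [Nat.cofinite_eq_atTop] at this

lemma summable_abs_row (a : E0 →L[ℝ] ℝ) (m : ℕ) : Summable (fun n => |a (e (m, n))|) := by
  have hinj : Function.Injective (fun n : ℕ => (m, n)) := fun a b h => by simpa using h
  exact (summable_abs_dual a).comp_injective hinj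

lemma tendsto_dual_row (a : E0 →L[ℝ] ℝ) (m : ℕ) :
    Tendsto (fun n => a (e (m, n))) atTop (𝓝 0) :=
  (summable_abs_row a m).of_abs.tendsto_atTop_zero

/-- The auxiliary sequence of row `m`. -/
noncomputable def Q (y : E0) (a : E0 →L[ℝ] ℝ) (m n : ℕ) : ℝ := (y (m, n) - a (e (m, n))) / 2

lemma Q_zero (y : E0) (a : E0 →L[ℝ] ℝ) (m : ℕ) : Q y a m 0 = bv y a m := rfl

lemma tendsto_Q (y : E0) (a : E0 →L[ℝ] ℝ) (m : ℕ) :
    Tendsto (fun n => Q y a m n) atTop (𝓝 0) := by
  have := ((tendsto_row y m).sub (tendsto_dual_row a m)).div_const 2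
  simpa [Q] using this

lemma IsW.Q_succ {y : E0} {a : E0 →L[ℝ] ℝ} (h : IsW y a) (m n : ℕ) :
    Q y a m (n + 1) = -(a (e (m, n)) + y (m, n)) / 2 := by
  have := h m n
  unfold Q
  linarith

lemma IsW.hasSum_row {y : E0} {a : E0 →L[ℝ] ℝ} (h : IsW y a) (m : ℕ) :
    HasSum (fun n => y (m, n) * a (e (m, n))) (-(bv y a m) ^ 2) := by
  have hs : Summable (fun n => y (m, n) * a (e (m, n))) := by
    have hinj : Function.Injective (fun n : ℕ => (m, n)) := fun a b h => by simpa using h
    exact (hasSum_dual a y).summable.comp_injective hinj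
  have hpart : ∀ N : ℕ, (∑ n ∈ Finset.range N, y (m, n) * a (e (m, n)))
      = (Q y a m N) ^ 2 - (Q y a m 0) ^ 2 := by
    intro N
    induction N with
    | zero => simp
    | succ N ih =>
      rw [Finset.sum_range_succ, ih, h.Q_succ m N]
      unfold Q
      ring
  have h1 : Tendsto (fun N => ∑ n ∈ Finset.range N, y (m, n) * a (e (m, n))) atTop
      (𝓝 (0 ^ 2 - (Q y a m 0) ^ 2)) := by
    simp_rw [hpart]
    exact ((tendsto_Q y a m).pow 2).sub_const _
  have h2 := hs.hasSum.tendsto_sum_nat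
  have h3 := tendsto_nhds_unique h2 h1
  have h4 := hs.hasSum
  rw [h3] at h4
  simpa [Q_zero] using h4

/-- The key identity: the pairing on `W` is minus the square of the `ℓ²` norm of the boundary
values. -/
lemma IsW.hasSum {y : E0} {a : E0 →L[ℝ] ℝ} (h : IsW y a) :
    HasSum (fun m => -(bv y a m) ^ 2) (a y) :=
  (hasSum_dual a y).prod_fiberwise fun m => h.hasSum_row m

lemma IsW.hasSum_sq {y : E0} {a : E0 →L[ℝ] ℝ} (h : IsW y a) :
    HasSum (fun m => (bv y a m) ^ 2) (-(a y)) := by
  simpa using h.hasSum.neg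

lemma IsW.sum_sq_le {y : E0} {a : E0 →L[ℝ] ℝ} (h : IsW y a) (s : Finset ℕ) :
    ∑ m ∈ s, (bv y a m) ^ 2 ≤ -(a y) :=
  sum_le_hasSum s (fun _ _ => sq_nonneg _) h.hasSum_sq

lemma IsW.abs_bv_le {y : E0} {a : E0 →L[ℝ] ℝ} (h : IsW y a) (m : ℕ) :
    |bv y a m| ≤ ∑' n, |a (e (m, n))| := by
  have hstep : ∀ n : ℕ, |Q y a m n| ≤ |a (e (m, n))| + |Q y a m (n + 1)| := by
    intro n
    have : Q y a m n = -(a (e (m, n))) - Q y a m (n + 1) := by
      rw [h.Q_succ m n]; unfold Q; ring
    rw [this]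
    calc |-(a (e (m, n))) - Q y a m (n + 1)| ≤ |-(a (e (m, n)))| + |Q y a m (n + 1)| :=
          abs_sub _ _
      _ = _ := by rw [abs_neg]
  have hpart : ∀ N : ℕ, |Q y a m 0| ≤ (∑ n ∈ Finset.range N, |a (e (m, n))|) + |Q y a m N| := by
    intro N
    induction N with
    | zero => simp
    | succ N ih =>
      rw [Finset.sum_range_succ]
      have := hstep N
      linarith
  have h1 : Tendsto (fun N => (∑ n ∈ Finset.range N, |a (e (m, n))|) + |Q y a m N|) atTop
      (𝓝 ((∑' n, |a (e (m, n))|) + |0|)) :=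
    ((summable_abs_row a m).hasSum.tendsto_sum_nat).add (tendsto_Q y a m).abs
  have h2 := ge_of_tendsto' h1 hpart
  simpa [Q_zero] using h2

/-- The boundary values are absolutely summable. -/
lemma IsW.summable_abs_bv {y : E0} {a : E0 →L[ℝ] ℝ} (h : IsW y a) :
    Summable (fun m => |bv y a m|) := by
  have h1 : Summable (fun m => ∑' n, |a (e (m, n))|) := (summable_abs_dual a).prod
  exact Summable.of_nonneg_of_le (fun m => abs_nonneg _) h.abs_bv_le h1

/-- A vector in the kernel part of `W`. -/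
noncomputable def vv (m k : ℕ) : E0 := e (m, k + 1) - e (m, k)

/-- The functional matching `vv`. -/
noncomputable def vs (m k : ℕ) : E0 →L[ℝ] ℝ := -(δ (m, k + 1) + δ (m, k))

lemma vs_apply (m k : ℕ) (y : E0) : vs m k y = -(y (m, k + 1) + y (m, k)) := by
  simp [vs]

lemma isW_vv (m k : ℕ) : IsW (vv m k) (vs m k) := by
  intro m' n
  simp only [vs_apply, vv, ZeroAtInftyContinuousMap.sub_apply, e_apply, Prod.mk.injEq]
  by_cases hm : m' = m
  · subst hm
    simp only [true_and]
    split_ifs <;> first | (exfalso; omega) | norm_num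
  · have hm' : ¬ (m = m') := fun h => hm h.symm
    simp [hm, hm']

lemma bv_vv (m k m' : ℕ) : bv (vv m k) (vs m k) m' = 0 := by
  simp only [bv, vs_apply, vv, ZeroAtInftyContinuousMap.sub_apply, e_apply, Prod.mk.injEq]
  by_cases hm : m' = m
  · subst hm
    rcases Nat.eq_zero_or_pos k with hk | hk
    · subst hk; simp
    · have : ¬ (k = 0) := hk.ne'
      have h2 : ¬ (0 = k) := fun h => this h.symm
      simp [this, h2]
  · have hm' : ¬ (m = m') := fun h => hm h.symm
    simp [hm, hm']

/-- The annihilation criterion for membership in `W`. -/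
lemma isW_iff (y : E0) (a : E0 →L[ℝ] ℝ) :
    IsW y a ↔ ∀ m k : ℕ, a (vv m k) + vs m k y = 0 := by
  constructor
  · intro h m k
    have := h m k
    simp only [vv, vs_apply, map_sub]
    linarith
  · intro h m k
    have := h m k
    simp only [vv, vs_apply, map_sub] at this
    linarith

end Pool.Agent.SumCE
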